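import Pool.Agent.H261R2.CM.L2

/-!
# Multipliers of measure close to one

Coprime integer polynomials `A`, `B` with `∫ log max(|A|, |B|) ≤ K` have, for every `ε > 0`, a common
multiplier `Φ` of Mahler measure at most `1 + ε` that makes both of length at most `N(K, ε)`.  In
particular every integer polynomial `A` of measure at most `B` that is coprime to its reciprocal has
a multiple of length at most `N(B, ε)` whose measure is at most `(1 + ε)` times the measure of `A`.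
-/

set_option autoImplicit false

namespace Pool.Agent.Results.MP_6d22ea_nt.ApproximateMultipliers

open Polynomial Filter

noncomputable section

/-- The Mahler measure of an integer polynomial in one variable. -/
def measure (A : ℤ[X]) : ℝ := (A.map (Int.castRingHom ℂ)).mahlerMeasure

/-- The length (the sum of the absolute values of the coefficients). -/
def length (A : ℤ[X]) : ℤ := ∑ i ∈ A.support, |A.coeff i|

/-- The value at `exp (2 π i t)`. -/
def value (A : ℤ[X]) (t : ℝ) : ℂ :=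
  (A.map (Int.castRingHom ℂ)).eval (Complex.exp (2 * (Real.pi : ℂ) * Complex.I * (t : ℂ)))

/-- The integral of `log max(|A|, |B|)` over the unit circle. -/
def pairHeight (A B : ℤ[X]) : ℝ := ∫ t in (0:ℝ)..1, Real.log (max ‖value A t‖ ‖value B t‖)

open Pool.Agent.H261R2.CM in
theorem structure_pairs (K ε : ℝ) (hε : 0 < ε) : ∃ N : ℕ, ∀ A B : ℤ[X], A ≠ 0 → B ≠ 0 →
    IsRelPrime A B → mx1 A B ≤ K →
    ∃ Φ : ℤ[X], Φ ≠ 0 ∧ m1 Φ ≤ 1 + ε ∧ len (A * Φ) ≤ N ∧ len (B * Φ) ≤ N := by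
  by_contra hcon
  push Not at hcon
  choose A B hA hB hAB hK hno using hcon
  obtain ⟨k, e, C, D, hk, hC, hD, hCD, he, hrel, _, _⟩ := pairs_compact_general A B hA hB hAB K hK
  obtain ⟨Q, hQ, hQlim⟩ := limit_general C D hC hD hCD (hyperfilter ℕ) e he A B hA hB hAB hrel
  have hle : (hyperfilter ℕ : Filter ℕ) ≤ atTop := by
    rw [← Nat.cofinite_eq_atTop]
    exact hyperfilter_le_cofinite
  set L1 : ℤ := ∑ s ∈ C.support, |C.coeff s| with hL1
  set L2 : ℤ := ∑ s ∈ D.support, |D.coeff s| with hL2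
  have hbig : ∀ᶠ n : ℕ in (hyperfilter ℕ : Filter ℕ), max L1 L2 ≤ (n : ℤ) := by
    have h1 : ∀ᶠ n : ℕ in atTop, max L1 L2 ≤ (n : ℤ) := by
      filter_upwards [eventually_ge_atTop (max L1 L2).toNat] with n hn
      have := Int.self_le_toNat (max L1 L2)
      omega
    exact hle h1
  have hsmall : ∀ᶠ n in (hyperfilter ℕ : Filter ℕ), Real.log (m1 (Q n)) < Real.log (1 + ε) :=
    hQlim.eventually_lt_const (Real.log_pos (by linarith))
  obtain ⟨n, h1, h2, h3⟩ := (hQ.and (hbig.and hsmall)).exists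
  obtain ⟨hQ0, hCn, hDn⟩ := h1
  have hQ1 : 1 ≤ m1 (Q n) := I1_one_le_m1 hQ0
  have hm : m1 (Q n) ≤ 1 + ε :=
    ((Real.log_lt_log_iff (by linarith) (by linarith)).mp h3).le
  have h7 : len (A n * Q n) ≤ n := by
    rw [mul_comm, ← hCn]
    exact (len_spec_le _ _).trans ((le_max_left _ _).trans h2)
  have h8 : len (B n * Q n) ≤ n := by
    rw [mul_comm, ← hDn]
    exact (len_spec_le _ _).trans ((le_max_right _ _).trans h2)
  exact absurd h8 (not_le.mpr (hno n (Q n) hQ0 hm h7))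

theorem value_reverse (A : ℤ[X]) (t : ℝ) : ‖value A.reverse t‖ = ‖value A t‖ := by
  unfold value
  set z : ℂ := Complex.exp (2 * (Real.pi : ℂ) * Complex.I * (t : ℂ)) with hz
  have hz0 : z ≠ 0 := Complex.exp_ne_zero _
  have hn : ‖z‖ = 1 := by
    rw [hz, Complex.norm_exp]
    simp
  have hconj : (starRingEnd ℂ) z = z⁻¹ := by
    rw [Complex.inv_def, Complex.normSq_eq_norm_sq, hn]
    simp
  have : Invertible z⁻¹ := invertibleOfNonzero (inv_ne_zero hz0)
  have h1 := eval₂_reverse_mul_pow (Int.castRingHom ℂ) z⁻¹ A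
  have h2 : (⅟ (z⁻¹) : ℂ) = z := by
    rw [invOf_eq_inv, inv_inv]
  rw [h2] at h1
  rw [eval_map, eval_map]
  have h3 : ‖eval₂ (Int.castRingHom ℂ) z A.reverse‖ = ‖eval₂ (Int.castRingHom ℂ) z⁻¹ A‖ := by
    rw [← h1, norm_mul, norm_pow, norm_inv, hn]
    simp
  rw [h3, ← hconj]
  have h4 : eval₂ (Int.castRingHom ℂ) ((starRingEnd ℂ) z) A =
      (starRingEnd ℂ) (eval₂ (Int.castRingHom ℂ) z A) := by
    rw [hom_eval₂]
    congr 1
    ext
    simp
  rw [h4, RCLike.norm_conj]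

theorem one_le_length (A : ℤ[X]) (hA : A ≠ 0) : 1 ≤ length A := by
  unfold length
  have h1 : A.natDegree ∈ A.support := natDegree_mem_support_of_nonzero hA
  have h2 : |A.coeff A.natDegree| ≤ ∑ i ∈ A.support, |A.coeff i| :=
    Finset.single_le_sum (f := fun i => |A.coeff i|) (fun i _ => abs_nonneg _) h1
  have h3 : A.coeff A.natDegree ≠ 0 := leadingCoeff_ne_zero.mpr hA
  exact (Int.one_le_abs h3).trans h2

theorem result :
    (∀ K ε : ℝ, 0 < ε → ∃ N : ℕ, ∀ A B : ℤ[X], A ≠ 0 → B ≠ 0 → IsRelPrime A B →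
      pairHeight A B ≤ K → ∃ Φ : ℤ[X], Φ ≠ 0 ∧ measure Φ ≤ 1 + ε ∧
        length (A * Φ) ≤ N ∧ length (B * Φ) ≤ N) ∧
    (∀ (N : ℕ) (A B Φ : ℤ[X]), A ≠ 0 → Φ ≠ 0 → length (A * Φ) ≤ N → length (B * Φ) ≤ N →
      pairHeight A B ≤ Real.log N) ∧
    (∀ B ε : ℝ, 0 < ε → ∃ N : ℕ, ∀ A : ℤ[X], IsRelPrime A A.reverse → measure A ≤ B →
      ∃ Φ : ℤ[X], Φ ≠ 0 ∧ length (A * Φ) ≤ N ∧ measure A ≤ measure (A * Φ) ∧
        measure (A * Φ) ≤ (1 + ε) * measure A) := by
  refine ⟨structure_pairs, ?_, ?_⟩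
  · intro N A B Φ hA hΦ h1 h2
    have h3 := Pool.Agent.H261R2.CM.mx1_mul Φ A B hΦ hA
    have h4 : Pool.Agent.H261R2.CM.mx1 (Φ * A) (Φ * B) ≤ Real.log N := by
      have g1 : length (Φ * A) ≤ N := by rwa [mul_comm]
      have g2 : length (Φ * B) ≤ N := by rwa [mul_comm]
      have g3 : (1 : ℤ) ≤ N := (one_le_length _ (mul_ne_zero hΦ hA)).trans g1
      refine Pool.Agent.H261R2.CM.mx1_le_of_len _ _ (mul_ne_zero hΦ hA) N ?_ ?_ ?_
      · exact_mod_cast g1
      · exact_mod_cast g2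
      · exact_mod_cast g3
    have h5 : 0 ≤ Real.log (Pool.Agent.H261R2.CM.m1 Φ) :=
      Real.log_nonneg (Pool.Agent.H261R2.CM.I1_one_le_m1 hΦ)
    have h6 : Pool.Agent.H261R2.CM.mx1 A B ≤ Real.log N := by linarith
    exact h6
  · intro B ε hε
    obtain ⟨N, hN⟩ := structure_pairs (Real.log (max B 1)) ε hε
    refine ⟨N, fun A hA hB => ?_⟩
    have hA0 : A ≠ 0 := by
      rintro rfl
      have h1 : IsUnit (0 : ℤ[X]) := hA (dvd_refl 0) (by simp)
      exact not_isUnit_zero h1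
    have hA1 : A.reverse ≠ 0 := by
      intro h
      exact hA0 (reverse_eq_zero.mp h)
    have hm : 1 ≤ Pool.Agent.H261R2.CM.m1 A := Pool.Agent.H261R2.CM.I1_one_le_m1 hA0
    have h1 : Pool.Agent.H261R2.CM.mx1 A A.reverse ≤ Real.log (max B 1) := by
      have h2 : Pool.Agent.H261R2.CM.mx1 A A.reverse = Real.log (Pool.Agent.H261R2.CM.m1 A) := by
        rw [Pool.Agent.H261R2.CM.D_log_m1]
        unfold Pool.Agent.H261R2.CM.mx1
        refine intervalIntegral.integral_congr fun t _ => ?_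
        have h3 : ‖Pool.Agent.H261R2.CM.ev1 A.reverse t‖ = ‖Pool.Agent.H261R2.CM.ev1 A t‖ :=
          value_reverse A t
        simp only [h3, max_self]
      rw [h2]
      exact Real.log_le_log (lt_of_lt_of_le one_pos hm) (le_trans hB (le_max_left _ _))
    obtain ⟨Φ, g1, g2, g3, g4⟩ := hN A A.reverse hA0 hA1 hA h1
    refine ⟨Φ, g1, g3, ?_, ?_⟩
    · have h3 := Pool.Agent.H261R2.CM.I1_m1_mul A Φ
      have h4 := Pool.Agent.H261R2.CM.I1_one_le_m1 g1
      change Pool.Agent.H261R2.CM.m1 A ≤ Pool.Agent.H261R2.CM.m1 (A * Φ)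
      rw [h3]
      nlinarith
    · have h3 := Pool.Agent.H261R2.CM.I1_m1_mul A Φ
      change Pool.Agent.H261R2.CM.m1 (A * Φ) ≤ (1 + ε) * Pool.Agent.H261R2.CM.m1 A
      rw [h3]
      nlinarith

end

end Pool.Agent.Results.MP_6d22ea_nt.ApproximateMultipliers
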