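import Pool.Agent.X16.BC.B

/-!
# Mahler measures of short combinations of tuples without common divisor

`combinations N K` is the set of the Mahler measures of the nonzero polynomials
`F = A_1 P_1 + … + A_r P_r`, where `P_1, …, P_r` are integer polynomials in any number of variables,
all of whose common divisors have Mahler measure `1`, with `∫ (1/2) log ∑ |P_i|² ≤ K`, and
`A_1, …, A_r` are integer polynomials of total length at most `N`.  Neither the degrees nor the
lengths of the `P_i` nor the number `r` are bounded.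

The closure of `combinations N K` consists of Mahler measures of integer polynomials, and some
iterated derived set of `combinations N K` is empty (finite Cantor-Bendixson rank).

In particular this holds for the measures of the polynomials `A P + C P^*` (Salem's construction),
where `P^*` is the reciprocal polynomial of `P`, all common divisors of `P` and `P^*` have measure
`1`, `P` has measure at most `B`, and `A`, `C` have total length at most `N`.  These polynomials
may be reciprocal.
-/

set_option autoImplicit false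

namespace Pool.Agent.Results.MP_6d22ea_nt.CoprimeCombinations

open MvPolynomial

noncomputable section

/-- Value of an integer polynomial in `k` variables at the torus point
`(exp (2 π i t_1), …, exp (2 π i t_k))`. -/
def value {k : ℕ} (F : MvPolynomial (Fin k) ℤ) (t : Fin k → ℝ) : ℂ :=
  eval (fun j : Fin k => Complex.exp (2 * (Real.pi : ℂ) * Complex.I * ((t j : ℝ) : ℂ)))
    (map (Int.castRingHom ℂ) F)

/-- The Mahler measure of an integer polynomial in `k` variables. -/
def mahler {k : ℕ} (F : MvPolynomial (Fin k) ℤ) : ℝ :=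
  Real.exp (∫ t in Set.Icc (0 : Fin k → ℝ) 1, Real.log ‖value F t‖)

/-- The sum of the absolute values of the coefficients. -/
def length {k : ℕ} (F : MvPolynomial (Fin k) ℤ) : ℤ := ∑ s ∈ F.support, |F.coeff s|

/-- The reciprocal polynomial `∏ X_i ^ (deg_i P) * P (1/X_1, …, 1/X_k)`. -/
def reciprocal {k : ℕ} (P : MvPolynomial (Fin k) ℤ) : MvPolynomial (Fin k) ℤ :=
  ∑ s ∈ P.support, monomial
    (Finsupp.equivFunOnFinite.symm fun i => P.degreeOf i - s i) (P.coeff s)

/-- The set of the Mahler measures of the nonzero integer polynomials in any number of variables. -/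
def allMeasures : Set ℝ :=
  {x : ℝ | ∃ k : ℕ, 1 ≤ k ∧ ∃ F : MvPolynomial (Fin k) ℤ, F ≠ 0 ∧ x = mahler F}

/-- The height `∫ (1/2) log ∑ |P_i|²` of a tuple of polynomials. -/
def tupleHeight {k r : ℕ} (P : Fin r → MvPolynomial (Fin k) ℤ) : ℝ :=
  ∫ t in Set.Icc (0 : Fin k → ℝ) 1, 1 / 2 * Real.log (∑ i, ‖value (P i) t‖ ^ 2)

/-- The Mahler measures of the nonzero combinations `∑ A_i P_i` of tuples `(P_i)` of height at most
`K`, all of whose common divisors have measure `1`, with coefficients of total length at most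
`N`. -/
def combinations (N K : ℝ) : Set ℝ :=
  {x : ℝ | ∃ (k r : ℕ) (P A : Fin r → MvPolynomial (Fin k) ℤ),
    (∀ Q : MvPolynomial (Fin k) ℤ, (∀ i, Q ∣ P i) → mahler Q = 1) ∧ tupleHeight P ≤ K ∧
    ((∑ i, length (A i) : ℤ) : ℝ) ≤ N ∧ ∑ i, A i * P i ≠ 0 ∧ x = mahler (∑ i, A i * P i)}

/-- The Mahler measures of the nonzero polynomials `A P + C P^*`, where `P` has measure at most `B`,
all common divisors of `P` and `P^*` have measure `1`, and `A`, `C` have total length at most
`N`. -/
def reciprocalCombinations (N B : ℝ) : Set ℝ :=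
  {x : ℝ | ∃ (k : ℕ) (P A C : MvPolynomial (Fin k) ℤ),
    (∀ Q : MvPolynomial (Fin k) ℤ, Q ∣ P → Q ∣ reciprocal P → mahler Q = 1) ∧ mahler P ≤ B ∧
    ((length A + length C : ℤ) : ℝ) ≤ N ∧ A * P + C * reciprocal P ≠ 0 ∧
    x = mahler (A * P + C * reciprocal P)}

theorem result :
    (∀ N K : ℝ, closure (combinations N K) ⊆ allMeasures ∧
      ∃ m : ℕ, derivedSet^[m] (combinations N K) = ∅) ∧
    (∀ N B : ℝ, closure (reciprocalCombinations N B) ⊆ allMeasures ∧
      ∃ m : ℕ, derivedSet^[m] (reciprocalCombinations N B) = ∅) := by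
  have key : ∀ (T : Set ℝ) (K : ℝ), T ⊆ Pool.Agent.H261R2.CM.LL K →
      closure T ⊆ allMeasures ∧ ∃ m : ℕ, derivedSet^[m] T = ∅ := by
    intro T K h
    constructor
    · exact ((Pool.Agent.H261R2.CM.closed_LL K).closure_subset_iff.mpr h).trans
        (Pool.Agent.W242.IM.LL_sub K)
    · obtain ⟨m, hm⟩ := Pool.Agent.H887R3.LW.finite_rank K
      refine ⟨m, Set.eq_empty_of_subset_empty ?_⟩
      rw [← hm]
      exact Pool.Agent.H887R3.LW.iterate_derived_mono h m
  constructor
  · intro N K
    refine key _ (K + 1 / 2 * Real.log (1 + N ^ 2)) ?_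
    rintro x ⟨k, r, P, A, hP, hK, hN, hF, rfl⟩
    have hA : ∀ t, ∑ i, ‖Pool.Agent.H261R2.CM.tv (A i) t‖ ≤ N := by
      intro t
      have h1 : ∑ i, ‖Pool.Agent.H261R2.CM.tv (A i) t‖ ≤ ∑ i, ((length (A i) : ℤ) : ℝ) :=
        Finset.sum_le_sum fun i _ => Pool.Agent.H261R2.CM.norm_tv_le (A i) t
      rw [← Int.cast_sum] at h1
      exact h1.trans hN
    refine Pool.Agent.H261R2.CM.LL_mono ?_ (Pool.Agent.X16.BC.lin_mem P A hP N hA hF)
    have h2 : (∫ y in Set.Icc (0 : Fin k → ℝ) 1,
        1 / 2 * Real.log (∑ i, ‖Pool.Agent.H261R2.CM.tv (P i) y‖ ^ 2)) = tupleHeight P := rfl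
    rw [h2]
    linarith
  · intro N B
    refine key _ (Real.log B + 1 / 2 * Real.log 2 + 1 / 2 * Real.log (1 + N ^ 2)) ?_
    rintro x ⟨k, P, A, C, hP, hB, hN, hF, rfl⟩
    have hP0 : P ≠ 0 := Pool.Agent.X16.BC.P_ne_zero hP
    refine Pool.Agent.H261R2.CM.LL_mono ?_ (Pool.Agent.X16.BC.recip_comb_mem P A C hP N
      (Pool.Agent.X16.BC.norm_add_le_len A C N hN) hF)
    have h1 : 1 ≤ Pool.Agent.H261R2.CM.mM P := Pool.Agent.H261R2.CM.one_le_mM P hP0
    have h2 : Real.log (Pool.Agent.H261R2.CM.mM P) ≤ Real.log B :=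
      Real.log_le_log (by linarith) hB
    linarith

end

end Pool.Agent.Results.MP_6d22ea_nt.CoprimeCombinations
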