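import Pool.Agent.X16.BC.G3

/-!
# Mahler measures of Laplacians of periodic graphs

A weighted periodic graph of rank `k` has a vertex set on which `ℤ ^ k` acts freely with `n` orbits
and `m` orbits of edges: the edges of the `e`-th orbit join the translate by `u` of the vertex
`x e` to the translate by `u + s e` of the vertex `y e`, for all `u ∈ ℤ ^ k`, and have the weight
(conductance, number of parallel edges) `w e ≥ 1`; `x e = none` or `y e = none` means that this end
of the edge is grounded.  At the point `t` of the torus the Laplacian is the positive semidefinite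
matrix `∑ w_e b_e b_e^*`, where `b_e = δ_{x e} - exp (2 π i (s_e · t)) δ_{y e}`.  The growth rate
`exp ∫ log det Δ` is the Mahler measure of the Laplacian polynomial of the graph; for connected
graphs without grounded edges it is the growth rate of the numbers of spanning trees of the finite
quotients of the graph (per fundamental domain).

The closure of the set of the growth rates of all weighted periodic graphs, of all ranks, with
determinant not identically zero, consists of Mahler measures of integer polynomials, and below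
every bound this set has finite Cantor-Bendixson rank; in fact a growth rate `x` is the measure of a
polynomial having a coprime companion of pair height at most `log x + (1/2) log 2`.

Method: `det Δ` dominates `|D|²` for every determinant `D` of `n` of the vectors `b_e`, and these
determinants are `0` or of Mahler measure `1`.
-/

set_option autoImplicit false

namespace Pool.Agent.Results.MP_6d22ea_nt.GraphLaplacians

open MvPolynomial

noncomputable section

/-- Value of an integer polynomial in `k` variables at the torus point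
`(exp (2 π i t_1), …, exp (2 π i t_k))`. -/
def value {k : ℕ} (F : MvPolynomial (Fin k) ℤ) (t : Fin k → ℝ) : ℂ :=
  eval (fun j : Fin k => Complex.exp (2 * (Real.pi : ℂ) * Complex.I * ((t j : ℝ) : ℂ)))
    (map (Int.castRingHom ℂ) F)

/-- The Mahler measure of an integer polynomial in `k` variables. -/
def mahler {k : ℕ} (F : MvPolynomial (Fin k) ℤ) : ℝ :=
  Real.exp (∫ t in Set.Icc (0 : Fin k → ℝ) 1, Real.log ‖value F t‖)

/-- The integral of `log max(|F|, |G|)` over the torus. -/
def pairHeight {k : ℕ} (F G : MvPolynomial (Fin k) ℤ) : ℝ :=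
  ∫ t in Set.Icc (0 : Fin k → ℝ) 1, Real.log (max ‖value F t‖ ‖value G t‖)

/-- The set of the Mahler measures of the nonzero integer polynomials in any number of variables. -/
def allMeasures : Set ℝ :=
  {x : ℝ | ∃ k : ℕ, 1 ≤ k ∧ ∃ F : MvPolynomial (Fin k) ℤ, F ≠ 0 ∧ x = mahler F}

/-- The Mahler measures of the nonzero polynomials `F` having a coprime companion `G ≠ 0` with
`∫ log max(|F|, |G|) ≤ K`. -/
def L (K : ℝ) : Set ℝ :=
  {x : ℝ | ∃ k : ℕ, 1 ≤ k ∧ ∃ F G : MvPolynomial (Fin k) ℤ, F ≠ 0 ∧ G ≠ 0 ∧ IsRelPrime F G ∧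
    pairHeight F G ≤ K ∧ x = mahler F}

/-- The vector `δ_x - exp (2 π i (s · t)) δ_y` of an edge; an end `none` is grounded. -/
def edgeVector {k n : ℕ} (x y : Option (Fin n)) (s : Fin k → ℤ) (t : Fin k → ℝ) : Fin n → ℂ :=
  fun i => (if x = some i then 1 else 0) - (if y = some i then
    Complex.exp (2 * (Real.pi : ℂ) * Complex.I * ∑ j, ((s j : ℤ) : ℂ) * ((t j : ℝ) : ℂ)) else 0)

/-- The Laplacian `∑ w_e b_e b_e^*` of the periodic graph at the point `t` of the torus. -/
def laplacian {k n m : ℕ} (x y : Fin m → Option (Fin n)) (s : Fin m → Fin k → ℤ) (w : Fin m → ℕ)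
    (t : Fin k → ℝ) : Matrix (Fin n) (Fin n) ℂ :=
  ∑ e, (w e : ℂ) • Matrix.vecMulVec (edgeVector (x e) (y e) (s e) t)
    (star (edgeVector (x e) (y e) (s e) t))

/-- The growth rates `exp ∫ log |det Δ|` of the weighted periodic graphs of all ranks for which
`det Δ` is not identically zero. -/
def growthRates : Set ℝ :=
  {X : ℝ | ∃ (k n m : ℕ) (x y : Fin m → Option (Fin n)) (s : Fin m → Fin k → ℤ) (w : Fin m → ℕ),
    (∀ e, 1 ≤ w e) ∧ (∃ t, (laplacian x y s w t).det ≠ 0) ∧
    X = Real.exp (∫ t in Set.Icc (0 : Fin k → ℝ) 1, Real.log ‖(laplacian x y s w t).det‖)}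

theorem result :
    (∀ x ∈ growthRates, 1 ≤ x ∧ x ∈ L (Real.log x + 1 / 2 * Real.log 2)) ∧
    closure growthRates ⊆ allMeasures ∧
    ∀ B : ℝ, ∃ m : ℕ, ∀ x ∈ derivedSet^[m] growthRates, B ≤ x := by
  have h1 : ∀ x ∈ growthRates, 1 ≤ x ∧ x ∈ L (Real.log x + 1 / 2 * Real.log 2) := by
    rintro X ⟨k, n, m, x, y, s, w, hw, h, hX⟩
    exact Pool.Agent.X16.BC.graph_mem x y s w hw h X hX
  have hBC : Pool.Agent.TH845.KN.BC growthRates := by
    intro B
    refine ⟨Real.log B + 1 / 2 * Real.log 2, ?_⟩
    rintro x ⟨hx, hB⟩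
    obtain ⟨g1, g2⟩ := h1 x hx
    refine Pool.Agent.H261R2.CM.LL_mono ?_ g2
    have h3 : Real.log x ≤ Real.log B := Real.log_le_log (by linarith) (le_of_lt hB)
    linarith
  obtain ⟨h2, h3⟩ := Pool.Agent.W242.IM.closure_of_LL _ hBC
  exact ⟨h1, h2, h3⟩

end

end Pool.Agent.Results.MP_6d22ea_nt.GraphLaplacians
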