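import Pool.Agent.X16.BC.A

/-!
# Mahler measures of polynomials dominating a sum of squares

`dominating c` is the set of the Mahler measures of the nonzero integer polynomials `F`, in any
number of variables, for which there are finitely many integer polynomials `P_1, …, P_r` in the same
variables, all of whose common divisors have Mahler measure `1`, with `∑ |P_i|² ≤ c |F|` on the torus.
For instance `F` may be, up to a factor of absolute value `1` on the torus, a sum `∑ P_i P_i^*` of any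
number of Hermitian squares of integer Laurent polynomials `P_i` without common divisor (`c = 1`), or
any integer polynomial with `|F| ≥ 1 / c` on the torus (`r = 1`, `P_1 = 1`).

An element `x` of `dominating c` is the measure of a polynomial with a coprime companion of pair
height at most `log x + (1/2) log (1 + c²)`.  Hence the closure of `dominating c` consists of Mahler
measures of integer polynomials, `dominating c` has a gap above `1`, and below every bound it has
finite Cantor-Bendixson rank; the same holds for the multiplicative monoid generated by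
`dominating c` and any class with bounded companions (for example the nonreciprocal measures).
-/

set_option autoImplicit false

namespace Pool.Agent.Results.MP_6d22ea_nt.SumsOfSquares

open MvPolynomial

noncomputable section

/-- Value of an integer polynomial in `k` variables at the torus point
`(exp (2 π i t_1), …, exp (2 π i t_k))`. -/
def value {k : ℕ} (F : MvPolynomial (Fin k) ℤ) (t : Fin k → ℝ) : ℂ :=
  eval (fun j : Fin k => Complex.exp (2 * (Real.pi : ℂ) * Complex.I * ((t j : ℝ) : ℂ)))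
    (map (Int.castRingHom ℂ) F)

/-- The Mahler measure of an integer polynomial in `k` variables. -/
def mahler {k : ℕ} (F : MvPolynomial (Fin k) ℤ) : ℝ :=
  Real.exp (∫ t in Set.Icc (0 : Fin k → ℝ) 1, Real.log ‖value F t‖)

/-- The integral of `log max(|F|, |G|)` over the torus. -/
def pairHeight {k : ℕ} (F G : MvPolynomial (Fin k) ℤ) : ℝ :=
  ∫ t in Set.Icc (0 : Fin k → ℝ) 1, Real.log (max ‖value F t‖ ‖value G t‖)

/-- The set of the Mahler measures of the nonzero integer polynomials in any number of variables. -/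
def allMeasures : Set ℝ :=
  {x : ℝ | ∃ k : ℕ, 1 ≤ k ∧ ∃ F : MvPolynomial (Fin k) ℤ, F ≠ 0 ∧ x = mahler F}

/-- The Mahler measures of the nonzero polynomials `F` having a coprime companion `G ≠ 0` with
`∫ log max(|F|, |G|) ≤ K`. -/
def L (K : ℝ) : Set ℝ :=
  {x : ℝ | ∃ k : ℕ, 1 ≤ k ∧ ∃ F G : MvPolynomial (Fin k) ℤ, F ≠ 0 ∧ G ≠ 0 ∧ IsRelPrime F G ∧
    pairHeight F G ≤ K ∧ x = mahler F}

/-- For every `B` some `L K` contains all elements of `T` below `B`. -/
def BoundedCompanions (T : Set ℝ) : Prop := ∀ B : ℝ, ∃ K : ℝ, T ∩ Set.Iio B ⊆ L K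

/-- The Mahler measures of the nonzero integer polynomials `F` for which there are `P_1, …, P_r`,
all of whose common divisors have Mahler measure `1`, with `∑ |P_i|² ≤ c |F|` on the torus. -/
def dominating (c : ℝ) : Set ℝ :=
  {x : ℝ | ∃ (k : ℕ) (F : MvPolynomial (Fin k) ℤ), F ≠ 0 ∧ x = mahler F ∧
    ∃ (r : ℕ) (P : Fin r → MvPolynomial (Fin k) ℤ),
      (∀ Q : MvPolynomial (Fin k) ℤ, (∀ i, Q ∣ P i) → mahler Q = 1) ∧
      ∀ t : Fin k → ℝ, ∑ i, ‖value (P i) t‖ ^ 2 ≤ c * ‖value F t‖}

theorem result :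
    (∀ c : ℝ, ∀ x ∈ dominating c, 1 ≤ x ∧ x ∈ L (Real.log x + 1 / 2 * Real.log (1 + c ^ 2))) ∧
    (∀ c : ℝ, closure (dominating c) ⊆ allMeasures ∧
      (∃ δ : ℝ, 1 < δ ∧ ∀ x ∈ dominating c, x = 1 ∨ δ ≤ x) ∧
      ∀ B : ℝ, ∃ m : ℕ, ∀ x ∈ derivedSet^[m] (dominating c), B ≤ x) ∧
    (∀ (c : ℝ) (T : Set ℝ), BoundedCompanions T →
      BoundedCompanions (Submonoid.closure (T ∪ dominating c) : Submonoid ℝ) ∧
      closure ((Submonoid.closure (T ∪ dominating c) : Submonoid ℝ) : Set ℝ) ⊆ allMeasures ∧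
      (∃ δ : ℝ, 1 < δ ∧ ∀ x ∈ (Submonoid.closure (T ∪ dominating c) : Submonoid ℝ),
        x = 1 ∨ δ ≤ x) ∧
      ∀ B : ℝ, ∃ m : ℕ, ∀ x ∈ derivedSet^[m]
        ((Submonoid.closure (T ∪ dominating c) : Submonoid ℝ) : Set ℝ), B ≤ x) ∧
    (∀ (k r : ℕ) (F : MvPolynomial (Fin k) ℤ) (P : Fin r → MvPolynomial (Fin k) ℤ),
      (∀ Q : MvPolynomial (Fin k) ℤ, (∀ i, Q ∣ P i) → IsUnit Q) →
      (∀ t : Fin k → ℝ, ‖value F t‖ = ∑ i, ‖value (P i) t‖ ^ 2) → mahler F ∈ dominating 1) ∧
    (∀ (k : ℕ) (F : MvPolynomial (Fin k) ℤ) (δ : ℝ), 0 < δ →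
      (∀ t : Fin k → ℝ, δ ≤ ‖value F t‖) → mahler F ∈ dominating (1 / δ)) := by
  have h1 : ∀ c : ℝ, ∀ x ∈ dominating c,
      1 ≤ x ∧ x ∈ L (Real.log x + 1 / 2 * Real.log (1 + c ^ 2)) := by
    rintro c x ⟨k, F, hF, rfl, r, P, hP, h⟩
    exact ⟨Pool.Agent.H261R2.CM.one_le_mM F hF, Pool.Agent.X16.BC.sos_mem hF P c h hP⟩
  have hBC : ∀ c : ℝ, Pool.Agent.TH845.KN.BC (dominating c) := by
    intro c B
    refine ⟨Real.log B + 1 / 2 * Real.log (1 + c ^ 2), ?_⟩
    rintro x ⟨hx, hB⟩
    obtain ⟨g1, g2⟩ := h1 c x hx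
    refine Pool.Agent.H261R2.CM.LL_mono ?_ g2
    have h3 : Real.log x ≤ Real.log B := Real.log_le_log (by linarith) (le_of_lt hB)
    linarith
  refine ⟨h1, ?_, ?_, ?_, ?_⟩
  · intro c
    obtain ⟨h2, h3⟩ := Pool.Agent.W242.IM.closure_of_LL _ (hBC c)
    exact ⟨h2, Pool.Agent.TH845.KN.gap_BC (hBC c), h3⟩
  · intro c T hT
    have h2 : Pool.Agent.TH845.KN.BC
        ((Submonoid.closure (T ∪ dominating c) : Submonoid ℝ) : Set ℝ) :=
      Pool.Agent.TH845.KN.BC_monoid (Pool.Agent.TH845.KN.BC.union hT (hBC c))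
    obtain ⟨h3, h4⟩ := Pool.Agent.W242.IM.closure_of_LL _ h2
    exact ⟨h2, h3, Pool.Agent.TH845.KN.gap_BC h2, h4⟩
  · intro k r F P hP h
    refine ⟨k, F, ?_, rfl, r, P, fun Q hQ => Pool.Agent.X16.BC.mM_unit (hP Q hQ), fun t => ?_⟩
    · rintro rfl
      have h0 : ∀ i, P i = 0 := by
        intro i
        refine Pool.Agent.H261R2.CM.J.eq_of_tv_eq fun t => ?_
        have h2 := h t
        have h3 : ‖value (0 : MvPolynomial (Fin k) ℤ) t‖ = 0 := by
          unfold value; simp
        rw [h3] at h2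
        have h4 := (Finset.sum_eq_zero_iff_of_nonneg (fun j _ => sq_nonneg ‖value (P j) t‖)).1
          h2.symm i (Finset.mem_univ i)
        have h5 : value (P i) t = 0 := by simpa using h4
        have h6 : Pool.Agent.H261R2.CM.tv (0 : MvPolynomial (Fin k) ℤ) t = 0 := by
          unfold Pool.Agent.H261R2.CM.tv; simp
        rw [h6]
        exact h5
      have h7 := hP 0 fun i => by rw [h0 i]
      exact not_isUnit_zero h7
    · rw [one_mul, h t]
  · intro k F δ hδ h
    refine ⟨k, F, ?_, rfl, 1, fun _ => 1, ?_, ?_⟩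
    · rintro rfl
      have h3 : ‖value (0 : MvPolynomial (Fin k) ℤ) 0‖ = 0 := by
        unfold value; simp
      have h2 := h 0
      rw [h3] at h2
      linarith
    · intro Q hQ
      exact Pool.Agent.X16.BC.mM_unit (isUnit_of_dvd_one (hQ 0))
    · intro t
      have h3 : value (1 : MvPolynomial (Fin k) ℤ) t = 1 := by
        unfold value; simp
      simp only [h3, norm_one, one_pow, Finset.sum_const, Finset.card_univ, Fintype.card_fin,
        one_smul]
      rw [div_mul_eq_mul_div, one_mul, le_div_iff₀ hδ, one_mul]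
      exact h t

end

end Pool.Agent.Results.MP_6d22ea_nt.SumsOfSquares
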